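import Mathlib
import Pool.Agent.R293.HO.Field

/-!
# MP_eed25b_nt: the classical associated order is a Hopf order, the nonclassical one is not

`K = 𝔽₅(t)`, `L = K(s, ω)` with `s³ = t`, `ω² + ω + 1 = 0`, a tame `S₃`-extension, and `𝔅 = O_L`.
The associated order in `K[G]` is `O_K[G]`.

Let `τ(s) = s`, `τ(ω) = ω²`.  The element `h₀ = ∑_g g(s⁻¹) gτg⁻¹` of `H_λ` maps `O_L` to `O_L`.  The
functional `ℓ(h) = t⁻¹ ∑_g g(s²) h_{gτg⁻¹}` takes values in `O_K` on the associated order `𝔄_λ`, but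
`(ℓ ⊗ ℓ)(Δ h₀) = 24 t⁻¹`.
-/

set_option autoImplicit false
set_option linter.unusedSectionVars false
set_option linter.unusedSimpArgs false

open scoped TensorProduct Polynomial

noncomputable section

namespace Pool.Agent.Results.MP_eed25b_nt.NotHopf

/-- `A` is a Hopf order over `O ⊆ K` in the `K`-form `H ⊆ E[G]` of the Hopf algebra `E[G]` (with
`Δ(g) = g ⊗ g`, `ε(g) = 1`, `S(g) = g⁻¹`): `A` is a subring, a finitely generated `O`-module and spans
`H` over `K`, and `Δ(A)` is contained in (the image of) `A ⊗_O A`, i.e. in the set of sums of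
`x ⊗ y`, `x, y ∈ A`, and `ε(A) ⊆ O`, `S(A) ⊆ A`. -/
structure IsHopfOrder {K E G : Type} [Field K] [Field E] [Algebra K E] [Group G] (O : Subring K)
    (H A : Set (MonoidAlgebra E G)) : Prop where
  subset : A ⊆ H
  one_mem : 1 ∈ A
  sub_mem : ∀ a ∈ A, ∀ b ∈ A, a - b ∈ A
  mul_mem : ∀ a ∈ A, ∀ b ∈ A, a * b ∈ A
  smul_mem : ∀ c ∈ O, ∀ a ∈ A, c • a ∈ A
  fg : ∃ S : Set (MonoidAlgebra E G), S.Finite ∧ S ⊆ A ∧
    ∀ a ∈ A, a ∈ Submodule.span O S
  spans : ∀ h ∈ H, h ∈ Submodule.span K A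
  comul_mem : ∀ a ∈ A, Coalgebra.comul (R := E) a ∈ AddSubgroup.closure
    {z : MonoidAlgebra E G ⊗[E] MonoidAlgebra E G | ∃ x ∈ A, ∃ y ∈ A, z = x ⊗ₜ[E] y}
  counit_mem : ∀ a ∈ A, ∃ c ∈ O, Coalgebra.counit (R := E) a = algebraMap K E c
  antipode_mem : ∀ a ∈ A, HopfAlgebra.antipode E a ∈ A

section defs

variable (R K L : Type) [CommRing R] [Field K] [Field L] [Algebra R K] [Algebra R L] [Algebra K L]

/-- The integral closure of `R` in `K`. -/
def ringOfInts : Subring K := (integralClosure R K).toSubring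

variable {K L} in
/-- The action of `z = ∑ z_g g ∈ K[G]` on `L`: `z · x = ∑ z_g g(x)`. -/
def act (z : MonoidAlgebra K (L ≃ₐ[K] L)) (x : L) : L := z.coeff.sum fun g c => c • g x

/-- The associated order of `O_L` in `K[G]`. -/
def classicalOrder : Set (MonoidAlgebra K (L ≃ₐ[K] L)) :=
  {z | ∀ x ∈ ringOfInts R L, act z x ∈ ringOfInts R L}

/-- `H_λ = L[λ(G)]^G`: the `h ∈ L[G]` fixed by the action of `G` through the Galois action on the
coefficients and conjugation on `G`. -/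
def Hlambda : Set (MonoidAlgebra L (L ≃ₐ[K] L)) :=
  {h | ∀ g k : L ≃ₐ[K] L, g (h.coeff k) = h.coeff (g * k * g⁻¹)}

variable {K L} in
/-- The action of `h = ∑ h_g λ(g)` on `L`: `h · x = ∑ h_g λ(g)⁻¹(1)(x) = ∑ h_g g⁻¹(x)`. -/
def actLambda (h : MonoidAlgebra L (L ≃ₐ[K] L)) (x : L) : L := h.coeff.sum fun g c => c * g⁻¹ x

/-- The associated order of `O_L` in `H_λ`. -/
def lambdaOrder : Set (MonoidAlgebra L (L ≃ₐ[K] L)) :=
  {h | h ∈ Hlambda K L ∧ ∀ x ∈ ringOfInts R L, actLambda h x ∈ ringOfInts R L}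

end defs

open Pool.Agent.R293.HO

section main

variable {R K L : Type} [CommRing R] [Field K] [Field L] [Algebra R K] [Algebra R L] [Algebra K L]
  [IsScalarTower R K L] [FiniteDimensional K L] [IsGalois K L]
  {t : K} {s ω : L} {σ τ : L ≃ₐ[K] L}

omit [Algebra K L] [IsScalarTower R K L] [FiniteDimensional K L] [IsGalois K L] [Field K]
  [Algebra R K] in
lemma mem_O {x : L} : x ∈ ringOfInts R L ↔ IsIntegral R x := Iff.rfl

omit [Algebra R K] [Algebra R L] [IsScalarTower R K L] [IsGalois K L] in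
lemma act_eq [Fintype (L ≃ₐ[K] L)] (z : MonoidAlgebra K (L ≃ₐ[K] L)) (x : L) :
    act z x = ∑ g, algebraMap K L (z.coeff g) * g x := by
  rw [act, Finsupp.sum_fintype _ _ (fun g => by rw [zero_smul])]
  exact Finset.sum_congr rfl fun g _ => Algebra.smul_def _ _

omit [Algebra R K] [Algebra R L] [IsScalarTower R K L] [IsGalois K L] in
lemma actLambda_eq [Fintype (L ≃ₐ[K] L)] (z : MonoidAlgebra L (L ≃ₐ[K] L)) (x : L) :
    actLambda z x = ∑ g, z.coeff g * g⁻¹ x := by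
  rw [actLambda, Finsupp.sum_fintype _ _ (fun g => by rw [zero_mul])]

omit [Algebra K L] [IsScalarTower R K L] [FiniteDimensional K L] [IsGalois K L] [Field K]
  [Algebra R K] in
lemma eq_int {x y : L} (h : x = y) (hy : IsIntegral R y) : IsIntegral R x := h ▸ hy

/-- the coefficients of the elements of the classical order are integral -/
lemma coeff_int (h : Dat R K L t s ω σ τ) {z : MonoidAlgebra K (L ≃ₐ[K] L)}
    (hz : z ∈ classicalOrder R K L) (g : L ≃ₐ[K] L) : IsIntegral R (z.coeff g) := by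
  classical
  have := Fintype.ofFinite (L ≃ₐ[K] L)
  obtain ⟨c, hc⟩ : ∃ c : (L ≃ₐ[K] L) → L, c = fun g => algebraMap K L (z.coeff g) := ⟨_, rfl⟩
  have hσc : ∀ g, σ (c g) = c g := fun g => by rw [hc]; exact AlgEquiv.commutes _ _
  have hact : ∀ x, act z x = (c 1 * x + c τ * τ x) + (c σ * σ x + c (σ * τ) * σ (τ x)) +
      (c (σ ^ 2) * (σ ^ 2) x + c (σ ^ 2 * τ) * (σ ^ 2) (τ x)) := by
    intro x
    rw [act_eq, h.sumG, hc]
    rfl
  have h3 := h.ω3
  have hu := h.uinv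
  have i3 : IsIntegral R (3 : L) := by
    have := isIntegral_algebraMap (R := R) (A := L) (x := 3)
    rwa [map_ofNat] at this
  have i2 : IsIntegral R (2 : L) := by
    have := isIntegral_algebraMap (R := R) (A := L) (x := 2)
    rwa [map_ofNat] at this
  have iω := h.int_ω
  have is := h.int_s
  -- the sums over rotations and reflections
  have key : ∀ p : L, IsIntegral R p → ∀ e : L, σ p = e * p → τ p = p → σ e = e →
      IsIntegral R ((c 1 + c σ * e + c (σ ^ 2) * e ^ 2) * p) ∧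
      IsIntegral R ((c τ + c (σ * τ) * e + c (σ ^ 2 * τ) * e ^ 2) * p) := by
    intro p hp e he hτp hσe
    have a1 : IsIntegral R (act z p) := hz p hp
    have a2 : IsIntegral R (act z (ω * p)) := hz (ω * p) (iω.mul hp)
    have e2 : (σ ^ 2) p = e ^ 2 * p := by
      rw [pow_two, AlgEquiv.mul_apply, he, map_mul, he, hσe]; ring
    rw [hact, hτp, he, e2] at a1
    rw [hact, map_mul, map_mul, map_mul, h.τω, hτp, map_mul, map_mul, map_pow, map_pow, h.σω,
      h.σ_ω2, he, e2] at a2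
    have q : IsIntegral R ((c τ + c (σ * τ) * e + c (σ ^ 2 * τ) * e ^ 2) * p) := by
      have h7 := ((i3.mul ((iω.pow 2).sub iω))).mul (a2.sub (iω.mul a1))
      refine eq_int ?_ h7
      linear_combination (-(c τ + c (σ * τ) * e + c (σ ^ 2 * τ) * e ^ 2) * p) * hu
    refine ⟨?_, q⟩
    refine eq_int ?_ (a1.sub q)
    ring
  have k0 := key 1 isIntegral_one 1 (by rw [map_one, mul_one]) (map_one τ) (map_one σ)
  have k1 := key s is ω h.σs h.τs h.σω
  have k2 := key (s ^ 2) (is.pow 2) (ω ^ 2) (by rw [map_pow, h.σs]; ring)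
    (by rw [map_pow, h.τs]) (by rw [map_pow, h.σω])
  have fin : ∀ a b d : L, σ a = a → σ b = b → σ d = d →
      IsIntegral R ((a + b * 1 + d * 1 ^ 2) * 1) → IsIntegral R ((a + b * ω + d * ω ^ 2) * s) →
      IsIntegral R ((a + b * ω ^ 2 + d * (ω ^ 2) ^ 2) * s ^ 2) →
      IsIntegral R a ∧ IsIntegral R b ∧ IsIntegral R d := by
    intro a b d ha hb hd j0 j1 j2
    have m1 : IsIntegral R (a + b * ω + d * ω ^ 2) := by
      refine h.int_A ?_ s h.τs (fun a ha => h.int_F1 ha) j1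
      rw [map_add, map_add, map_mul, map_mul, map_pow, ha, hb, hd, h.σω]
    have m2 : IsIntegral R (a + b * ω ^ 2 + d * (ω ^ 2) ^ 2) := by
      refine h.int_A ?_ (s ^ 2) (by rw [map_pow, h.τs]) (fun a ha => h.int_F2 ha) j2
      rw [map_add, map_add, map_mul, map_mul, map_pow, map_pow, map_pow, ha, hb, hd, h.σω]
    have m0 : IsIntegral R (a + b + d) := eq_int (by ring) j0
    have h5 := h.five
    have hw := h.ω2
    refine ⟨?_, ?_, ?_⟩
    · refine eq_int ?_ (i2.mul ((m0.add m1).add m2))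
      linear_combination (-a) * h5 - (2 * b + 2 * d * (ω ^ 2 - ω + 1)) * hw
    · refine eq_int ?_ (i2.mul ((m0.add ((iω.pow 2).mul m1)).add (iω.mul m2)))
      linear_combination (-b) * h5 - (2 * a + 2 * d) * hw - (4 * b + 2 * d * (ω + ω ^ 2)) * h3
    · refine eq_int ?_ (i2.mul ((m0.add (iω.mul m1)).add ((iω.pow 2).mul m2)))
      linear_combination (-d) * h5 - (2 * a + 2 * b) * hw -
        (2 * b * ω + 2 * d * (ω ^ 3 + 2)) * h3
  obtain ⟨f1, f2, f3⟩ := fin _ _ _ (hσc 1) (hσc σ) (hσc (σ ^ 2)) k0.1 k1.1 k2.1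
  obtain ⟨f4, f5, f6⟩ := fin _ _ _ (hσc τ) (hσc (σ * τ)) (hσc (σ ^ 2 * τ)) k0.2 k1.2 k2.2
  rw [← int_map_iff (L := L)]
  have hcg : algebraMap K L (z.coeff g) = c g := by rw [hc]
  rw [hcg]
  rcases h.cases g with rfl | rfl | rfl | rfl | rfl | rfl
  · exact f1
  · exact f4
  · exact f2
  · exact f5
  · exact f3
  · exact f6

lemma mem_classical (h : Dat R K L t s ω σ τ) {z : MonoidAlgebra K (L ≃ₐ[K] L)} :
    z ∈ classicalOrder R K L ↔ ∀ g, IsIntegral R (z.coeff g) := by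
  classical
  have := Fintype.ofFinite (L ≃ₐ[K] L)
  refine ⟨fun hz g => coeff_int h hz g, fun hz x hx => ?_⟩
  rw [mem_O, act_eq]
  exact IsIntegral.sum _ fun g _ => (int_map_iff.2 (hz g)).mul (int_map g hx)

lemma single_mem (h : Dat R K L t s ω σ τ) (g : L ≃ₐ[K] L) {a : K} (ha : IsIntegral R a) :
    MonoidAlgebra.single g a ∈ classicalOrder R K L := by
  classical
  rw [mem_classical h]
  intro k
  rw [MonoidAlgebra.coeff_single, Finsupp.single_apply]
  split_ifs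
  · exact ha
  · exact isIntegral_zero

omit [Algebra R K] [Algebra R L] [IsScalarTower R K L] [FiniteDimensional K L] [IsGalois K L] in
lemma eq_sum {E : Type} [Field E] [Fintype (L ≃ₐ[K] L)] (a : MonoidAlgebra E (L ≃ₐ[K] L)) :
    a = ∑ g, MonoidAlgebra.single g (a.coeff g) := by
  conv_lhs => rw [← MonoidAlgebra.sum_coeff_single a]
  rw [Finsupp.sum_fintype _ _ (fun g => MonoidAlgebra.single_zero g)]

/-- the classical order is a Hopf order -/
theorem classical_hopf (h : Dat R K L t s ω σ τ) :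
    IsHopfOrder (ringOfInts R K) Set.univ (classicalOrder R K L) := by
  classical
  have := Fintype.ofFinite (L ≃ₐ[K] L)
  refine ⟨Set.subset_univ _, single_mem h 1 isIntegral_one, ?_, ?_, ?_, ?_, ?_, ?_, ?_, ?_⟩
  · intro a ha b hb
    rw [mem_classical h] at ha hb ⊢
    intro g
    rw [MonoidAlgebra.coeff_sub, Finsupp.sub_apply]
    exact (ha g).sub (hb g)
  · intro a ha b hb
    rw [mem_classical h] at ha hb ⊢
    intro g
    rw [MonoidAlgebra.coeff_mul, Finsupp.sum]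
    refine IsIntegral.sum _ fun k _ => ?_
    rw [Finsupp.sum]
    refine IsIntegral.sum _ fun l _ => ?_
    split_ifs
    · exact (ha k).mul (hb l)
    · exact isIntegral_zero
  · intro c hc a ha
    rw [mem_classical h] at ha ⊢
    intro g
    rw [MonoidAlgebra.coeff_smul_apply, smul_eq_mul]
    exact IsIntegral.mul hc (ha g)
  · refine ⟨Set.range fun g : L ≃ₐ[K] L => MonoidAlgebra.single g (1 : K), Set.finite_range _, ?_, ?_⟩
    · rintro _ ⟨g, rfl⟩
      exact single_mem h g isIntegral_one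
    · intro a ha
      rw [mem_classical h] at ha
      rw [eq_sum a]
      refine Submodule.sum_mem _ fun g _ => ?_
      have e : MonoidAlgebra.single g (a.coeff g) =
          (⟨a.coeff g, ha g⟩ : ringOfInts R K) • MonoidAlgebra.single g (1 : K) := by
        rw [MonoidAlgebra.smul_single]
        congr 1
        show a.coeff g = a.coeff g * 1
        rw [mul_one]
      rw [e]
      exact Submodule.smul_mem _ _ (Submodule.subset_span ⟨g, rfl⟩)
  · intro a _
    rw [eq_sum a]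
    refine Submodule.sum_mem _ fun g _ => ?_
    have e : MonoidAlgebra.single g (a.coeff g) = a.coeff g • MonoidAlgebra.single g (1 : K) := by
      rw [MonoidAlgebra.smul_single, smul_eq_mul, mul_one]
    rw [e]
    exact Submodule.smul_mem _ _ (Submodule.subset_span (single_mem h g isIntegral_one))
  · intro a ha
    rw [mem_classical h] at ha
    rw [eq_sum a, map_sum]
    refine AddSubgroup.sum_mem _ fun g _ => AddSubgroup.subset_closure
      ⟨_, single_mem h g isIntegral_one, _, single_mem h g (ha g), ?_⟩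
    rw [MonoidAlgebra.comul_single, CommSemiring.comul_apply, TensorProduct.map_tmul]
    rfl
  · intro a ha
    rw [mem_classical h] at ha
    refine ⟨∑ g, a.coeff g, Subring.sum_mem _ fun g _ => ha g, ?_⟩
    conv_lhs => rw [eq_sum a]
    rw [map_sum]
    refine Finset.sum_congr rfl fun g _ => ?_
    rw [MonoidAlgebra.counit_single]
    rfl
  · intro a ha
    rw [mem_classical h] at ha
    rw [eq_sum a, map_sum, mem_classical h]
    intro k
    rw [MonoidAlgebra.coeff_sum, Finsupp.finsetSum_apply]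
    refine IsIntegral.sum _ fun g _ => ?_
    rw [MonoidAlgebra.antipode_single, MonoidAlgebra.coeff_single, Finsupp.single_apply]
    split_ifs
    · exact ha g
    · exact isIntegral_zero

/-! ### the order in `H_λ` -/

omit [Algebra R K] [Algebra R L] [IsScalarTower R K L] [FiniteDimensional K L] [IsGalois K L] in
/-- the functional `ℓ` -/
def ell [Fintype (L ≃ₐ[K] L)] (t : K) (s : L) (τ : L ≃ₐ[K] L) :
    MonoidAlgebra L (L ≃ₐ[K] L) →ₗ[L] L where
  toFun x := algebraMap K L t⁻¹ * ∑ g, g (s ^ 2) * x.coeff (g * τ * g⁻¹)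
  map_add' x y := by
    rw [← mul_add, ← Finset.sum_add_distrib]
    congr 1
    refine Finset.sum_congr rfl fun g _ => ?_
    rw [MonoidAlgebra.coeff_add, Finsupp.add_apply, mul_add]
  map_smul' c x := by
    rw [RingHom.id_apply, smul_eq_mul, Finset.mul_sum, Finset.mul_sum, Finset.mul_sum]
    refine Finset.sum_congr rfl fun g _ => ?_
    rw [MonoidAlgebra.coeff_smul_apply, smul_eq_mul]
    ring

omit [Algebra R K] [Algebra R L] [IsScalarTower R K L] [FiniteDimensional K L] [IsGalois K L] in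
lemma ell_apply [Fintype (L ≃ₐ[K] L)] (t : K) (s : L) (τ : L ≃ₐ[K] L)
    (x : MonoidAlgebra L (L ≃ₐ[K] L)) :
    ell t s τ x = algebraMap K L t⁻¹ * ∑ g, g (s ^ 2) * x.coeff (g * τ * g⁻¹) := rfl

section rel

variable (h : Dat R K L t s ω σ τ)

omit [IsScalarTower R K L] [FiniteDimensional K L] [IsGalois K L]

include h

lemma rσi : σ⁻¹ = σ * σ := by
  refine inv_eq_of_mul_eq_one_right ?_
  rw [← mul_assoc, ← pow_two, ← pow_succ, h.σ3]

lemma rτi : τ⁻¹ = τ := inv_eq_of_mul_eq_one_right h.τ2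

lemma rτσ : τ * σ = σ * (σ * τ) := by rw [h.τσ, pow_two, mul_assoc]

lemma rτσ' (x : L ≃ₐ[K] L) : τ * (σ * x) = σ * (σ * (τ * x)) := by
  rw [← mul_assoc, rτσ h]; simp only [mul_assoc]

lemma rττ' (x : L ≃ₐ[K] L) : τ * (τ * x) = x := by
  rw [← mul_assoc, h.τ2, one_mul]

lemma rσσσ : σ * (σ * σ) = 1 := by rw [← mul_assoc, ← pow_two, ← pow_succ, h.σ3]

lemma rσσσ' (x : L ≃ₐ[K] L) : σ * (σ * (σ * x)) = x := by
  rw [← mul_assoc, ← mul_assoc, ← pow_two, ← pow_succ, h.σ3, one_mul]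

lemma c1 : (1 : L ≃ₐ[K] L) * τ * 1⁻¹ = τ := by group
lemma c2 : τ * τ * τ⁻¹ = τ := by group
lemma c3 : σ * τ * σ⁻¹ = σ ^ 2 * τ := by
  simp only [rσi h, rτi h, rτσ h, rτσ' h, h.τ2, rττ' h, rσσσ h, rσσσ' h, mul_assoc, mul_inv_rev,
    pow_two, mul_one]
lemma c4 : σ * τ * τ * (σ * τ)⁻¹ = σ ^ 2 * τ := by
  simp only [rσi h, rτi h, rτσ h, rτσ' h, h.τ2, rττ' h, rσσσ h, rσσσ' h, mul_assoc, mul_inv_rev,
    pow_two, mul_one]
lemma c5 : σ ^ 2 * τ * (σ ^ 2)⁻¹ = σ * τ := by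
  simp only [rσi h, rτi h, rτσ h, rτσ' h, h.τ2, rττ' h, rσσσ h, rσσσ' h, mul_assoc, mul_inv_rev,
    pow_two, mul_one]
lemma c6 : σ ^ 2 * τ * τ * (σ ^ 2 * τ)⁻¹ = σ * τ := by
  simp only [rσi h, rτi h, rτσ h, rτσ' h, h.τ2, rττ' h, rσσσ h, rσσσ' h, mul_assoc, mul_inv_rev,
    pow_two, mul_one]

lemma i3 : (σ ^ 2)⁻¹ = σ := by
  simp only [rσi h, rτi h, rτσ h, rτσ' h, h.τ2, rττ' h, rσσσ h, rσσσ' h, mul_assoc, mul_inv_rev,
    pow_two, mul_one]
lemma i4 : (σ * τ)⁻¹ = σ * τ := by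
  simp only [rσi h, rτi h, rτσ h, rτσ' h, h.τ2, rττ' h, rσσσ h, rσσσ' h, mul_assoc, mul_inv_rev,
    pow_two, mul_one]
lemma i5 : (σ ^ 2 * τ)⁻¹ = σ ^ 2 * τ := by
  simp only [rσi h, rτi h, rτσ h, rτσ' h, h.τ2, rττ' h, rσσσ h, rσσσ' h, mul_assoc, mul_inv_rev,
    pow_two, mul_one]

lemma j4 : σ * τ = τ * σ ^ 2 := by
  simp only [rσi h, rτi h, rτσ h, rτσ' h, h.τ2, rττ' h, rσσσ h, rσσσ' h, mul_assoc, mul_inv_rev,
    pow_two, mul_one]

lemma n1 : ω ≠ 1 := by
  intro h1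
  have h2 := h.ω2
  rw [h1] at h2
  have h3 := h.five
  have : (1 : L) = 0 := by linear_combination 2 * h2 - h3
  exact one_ne_zero this

lemma n2 : ω ^ 2 ≠ 1 := by
  intro h2
  apply n1 h
  have := h.ω3
  linear_combination this - ω * h2

lemma n3 : ω ^ 2 ≠ ω := by
  intro h2
  have h3 : ω * (ω - 1) = 0 := by linear_combination h2
  rcases mul_eq_zero.1 h3 with h4 | h4
  · exact h.ω0 h4
  · exact n1 h (sub_eq_zero.1 h4)

lemma m1 : σ * τ ≠ τ := by
  intro h1
  have := congrArg (fun g : L ≃ₐ[K] L => g s) h1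
  simp only [AlgEquiv.mul_apply, h.τs, h.σs] at this
  exact n1 h (mul_right_cancel₀ h.s0 (by rw [this, one_mul]))

lemma m2 : σ ^ 2 * τ ≠ τ := by
  intro h1
  have := congrArg (fun g : L ≃ₐ[K] L => g s) h1
  simp only [AlgEquiv.mul_apply, h.τs, h.σ_s2] at this
  exact n2 h (mul_right_cancel₀ h.s0 (by rw [this, one_mul]))

lemma m3 : σ ^ 2 * τ ≠ σ * τ := by
  intro h1
  have := congrArg (fun g : L ≃ₐ[K] L => g s) h1
  simp only [AlgEquiv.mul_apply, h.τs, h.σ_s2, h.σs] at this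
  exact n3 h (mul_right_cancel₀ h.s0 this)

end rel

/-- `ℓ(x) s² = (ω² - ω) (x · (ω s) - ω x · s)` -/
lemma ell_s2 [Fintype (L ≃ₐ[K] L)] (h : Dat R K L t s ω σ τ) (x : MonoidAlgebra L (L ≃ₐ[K] L)) :
    ell t s τ x * s ^ 2 =
      (ω ^ 2 - ω) * (actLambda x (ω * s) - ω * actLambda x s) := by
  have ht : algebraMap K L t⁻¹ * s ^ 3 = 1 := by
    rw [h.s3, ← map_mul, inv_mul_cancel₀ h.t0, map_one]
  rw [ell_apply, actLambda_eq, actLambda_eq, h.sumG, h.sumG, h.sumG, c1 h, c2 h, c3 h, c4 h, c5 h,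
    c6 h, rτi h, i3 h, i4 h, i5 h, rσi h]
  simp only [AlgEquiv.mul_apply, AlgEquiv.one_apply, inv_one, map_mul, map_pow, h.σs, h.σω, h.τs,
    h.τω, h.σ_s2, h.σ_ω2]
  have h3 := h.ω3
  have hu := h.u2
  linear_combination (2 * s * (x.coeff τ + ω ^ 2 * x.coeff (σ ^ 2 * τ) +
    ω ^ 4 * x.coeff (σ * τ))) * ht + (2 * s * ω * x.coeff (σ * τ)) * h3 -
    (s * (x.coeff τ + ω * x.coeff (σ * τ) + ω ^ 2 * x.coeff (σ ^ 2 * τ))) * hu

/-- `ℓ` is integral on the order -/
lemma ell_mem [Fintype (L ≃ₐ[K] L)] (h : Dat R K L t s ω σ τ) {x : MonoidAlgebra L (L ≃ₐ[K] L)}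
    (hx : x ∈ lambdaOrder R K L) : ∃ a : K, IsIntegral R a ∧ ell t s τ x = algebraMap K L a := by
  have e : ell t s τ x = algebraMap K L (t⁻¹ * Algebra.trace K L (s ^ 2 * x.coeff τ)) := by
    rw [ell_apply, map_mul, trace_eq_sum_automorphisms]
    congr 1
    refine Finset.sum_congr (Finset.ext fun _ => by simp) fun g _ => ?_
    rw [← hx.1 g τ, ← map_mul]
  refine ⟨_, ?_, e⟩
  apply h.int_F2
  rw [← e, ell_s2 h x]
  have i1 : IsIntegral R (actLambda x s) := hx.2 s h.int_s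
  have i2 : IsIntegral R (actLambda x (ω * s)) := hx.2 (ω * s) (h.int_ω.mul h.int_s)
  exact ((h.int_ω.pow 2).sub h.int_ω).mul (i2.sub (h.int_ω.mul i1))

omit [Algebra R K] [Algebra R L] [IsScalarTower R K L] [FiniteDimensional K L] [IsGalois K L] in
/-- the element `h₀` -/
def h0 [Fintype (L ≃ₐ[K] L)] (s : L) (τ : L ≃ₐ[K] L) : MonoidAlgebra L (L ≃ₐ[K] L) :=
  ∑ g, MonoidAlgebra.single (g * τ * g⁻¹) (g s⁻¹)

omit [Algebra R K] [Algebra R L] [IsScalarTower R K L] [FiniteDimensional K L] [IsGalois K L] in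
lemma h0_coeff [Fintype (L ≃ₐ[K] L)] [DecidableEq (L ≃ₐ[K] L)] (s : L) (τ k : L ≃ₐ[K] L) :
    (h0 s τ).coeff k = ∑ g, if g * τ * g⁻¹ = k then g s⁻¹ else 0 := by
  rw [h0, MonoidAlgebra.coeff_sum, Finsupp.finsetSum_apply]
  refine Finset.sum_congr rfl fun g _ => ?_
  rw [MonoidAlgebra.coeff_single, Finsupp.single_apply]

lemma h0_mem [Fintype (L ≃ₐ[K] L)] (h : Dat R K L t s ω σ τ) : h0 s τ ∈ lambdaOrder R K L := by
  classical
  refine ⟨?_, ?_⟩
  · intro g k
    rw [h0_coeff, h0_coeff, map_sum]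
    refine Eq.trans (Finset.sum_congr rfl fun l _ => ?_) (Equiv.sum_comp (Equiv.mulLeft g) _)
    have e : (g * l * τ * (g * l)⁻¹ = g * k * g⁻¹) ↔ l * τ * l⁻¹ = k := by
      constructor
      · intro h1
        have h2 : g * (l * τ * l⁻¹) * g⁻¹ = g * k * g⁻¹ := by
          rw [← h1]; group
        exact mul_left_cancel (mul_right_cancel h2)
      · rintro rfl
        group
    show g (if l * τ * l⁻¹ = k then l s⁻¹ else 0) =
      if g * l * τ * (g * l)⁻¹ = g * k * g⁻¹ then (g * l) s⁻¹ else 0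
    by_cases h1 : l * τ * l⁻¹ = k
    · rw [if_pos h1, if_pos (e.2 h1)]
      rfl
    · rw [if_neg h1, if_neg (fun h2 => h1 (e.1 h2)), map_zero]
  · intro x hx
    have e0 : actLambda (h0 s τ) x = ∑ g, g s⁻¹ * (g * τ * g⁻¹)⁻¹ x := by
      rw [actLambda_eq]
      calc ∑ k, (h0 s τ).coeff k * k⁻¹ x
          = ∑ k, ∑ g, if g * τ * g⁻¹ = k then g s⁻¹ * k⁻¹ x else 0 := by
            refine Finset.sum_congr rfl fun k _ => ?_
            rw [h0_coeff, Finset.sum_mul]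
            refine Finset.sum_congr rfl fun g _ => ?_
            split_ifs
            · rfl
            · rw [zero_mul]
        _ = ∑ g, ∑ k, if g * τ * g⁻¹ = k then g s⁻¹ * k⁻¹ x else 0 := Finset.sum_comm
        _ = _ := by
            refine Finset.sum_congr rfl fun g _ => ?_
            rw [Finset.sum_ite_eq]
            simp
    obtain ⟨b, hb⟩ : ∃ b : L, b = x + ω * σ x + ω ^ 2 * σ (σ x) := ⟨_, rfl⟩
    have hbi : IsIntegral R b := by
      rw [hb]
      exact (IsIntegral.add hx (h.int_ω.mul (int_map σ hx))).add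
        ((h.int_ω.pow 2).mul (int_map σ (int_map σ hx)))
    have hσσσ : σ (σ (σ x)) = x := by
      have := congrArg (fun g : L ≃ₐ[K] L => g x) (rσσσ h)
      exact this
    have h3 := h.ω3
    have hσb : σ b = ω ^ 2 * b := by
      rw [hb, map_add, map_add, map_mul, map_mul, map_pow, h.σω, hσσσ]
      linear_combination (-(σ x) - ω * σ (σ x)) * h3
    have hω0 := h.ω0
    have hs0 := h.s0
    have hci : IsIntegral R (b / s ^ 2) := by
      refine h.int_A ?_ (s ^ 2) (by rw [map_pow, h.τs]) (fun a ha => h.int_F2 ha) ?_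
      · rw [map_div₀, map_pow, hσb, h.σs]
        field_simp
      · rw [div_mul_cancel₀ _ (pow_ne_zero 2 hs0)]
        exact hbi
    have e : actLambda (h0 s τ) x = (1 + 1) * (s * τ (b / s ^ 2)) := by
      have hi1 : (ω * s)⁻¹ = ω ^ 2 * s⁻¹ := by
        rw [mul_inv, inv_eq_of_mul_eq_one_right (show ω * ω ^ 2 = 1 by linear_combination h3)]
      have hi2 : (ω ^ 2 * s)⁻¹ = ω * s⁻¹ := by
        rw [mul_inv, inv_eq_of_mul_eq_one_right (show ω ^ 2 * ω = 1 by linear_combination h3)]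
      have hi3 : s * τ (b / s ^ 2) = s⁻¹ * τ b := by
        rw [map_div₀, map_pow, h.τs]
        field_simp
      have hi4 : (ω * (ω * s))⁻¹ = ω * s⁻¹ := by rw [← hi2]; congr 1; ring
      have hi5 : (ω ^ 2 * (ω ^ 2 * s))⁻¹ = ω ^ 2 * s⁻¹ := by
        rw [← hi1]; congr 1
        linear_combination (ω * s) * h3
      rw [hi3, e0, h.sumG, c1 h, c2 h, c3 h, c4 h, c5 h, c6 h, rτi h, i4 h, i5 h, ← h.τσ, j4 h]
      simp only [AlgEquiv.mul_apply, AlgEquiv.one_apply, map_inv₀, h.σs, h.τs, h.σ_s2,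
        map_pow, hb, map_add, map_mul, h.τω, pow_two σ, h.σω, hi1, hi2, hi4, hi5]
      linear_combination (-2 * s⁻¹ * ω * τ (σ (σ x))) * h3
    rw [e]
    exact (isIntegral_one.add isIntegral_one).mul (h.int_s.mul (int_map τ hci))

/-- values of `ℓ` -/
lemma ell_single [Fintype (L ≃ₐ[K] L)] (h : Dat R K L t s ω σ τ) :
    ell t s τ (MonoidAlgebra.single τ 1) = algebraMap K L t⁻¹ * (2 * s ^ 2) ∧
    ell t s τ (MonoidAlgebra.single (σ ^ 2 * τ) 1) = algebraMap K L t⁻¹ * (2 * (ω * s) ^ 2) ∧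
    ell t s τ (MonoidAlgebra.single (σ * τ) 1) = algebraMap K L t⁻¹ * (2 * (ω ^ 2 * s) ^ 2) := by
  classical
  refine ⟨?_, ?_, ?_⟩
  · rw [ell_apply, h.sumG, c1 h, c2 h, c3 h, c4 h, c5 h, c6 h]
    simp only [MonoidAlgebra.coeff_single, Finsupp.single_apply, if_neg (m1 h).symm,
      if_neg (m2 h).symm, AlgEquiv.one_apply, map_pow, h.τs, if_true, mul_zero]
    ring
  · rw [ell_apply, h.sumG, c1 h, c2 h, c3 h, c4 h, c5 h, c6 h]
    simp only [MonoidAlgebra.coeff_single, Finsupp.single_apply, if_neg (m2 h),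
      if_neg (m3 h), AlgEquiv.mul_apply, map_pow, h.τs, h.σs, if_true, mul_zero]
    ring
  · rw [ell_apply, h.sumG, c1 h, c2 h, c3 h, c4 h, c5 h, c6 h]
    simp only [MonoidAlgebra.coeff_single, Finsupp.single_apply, if_neg (m1 h),
      if_neg (m3 h).symm, AlgEquiv.mul_apply, map_pow, h.τs, h.σ_s2, if_true, mul_zero]
    ring

/-- the functional `ℓ ⊗ ℓ` -/
def ell2 [Fintype (L ≃ₐ[K] L)] (t : K) (s : L) (τ : L ≃ₐ[K] L) :
    MonoidAlgebra L (L ≃ₐ[K] L) ⊗[L] MonoidAlgebra L (L ≃ₐ[K] L) →ₗ[L] L :=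
  LinearMap.mul' L L ∘ₗ TensorProduct.map (ell t s τ) (ell t s τ)

lemma ell2_tmul [Fintype (L ≃ₐ[K] L)] (t : K) (s : L) (τ : L ≃ₐ[K] L)
    (x y : MonoidAlgebra L (L ≃ₐ[K] L)) :
    ell2 t s τ (x ⊗ₜ y) = ell t s τ x * ell t s τ y := by
  simp [ell2]

lemma ell2_comul [Fintype (L ≃ₐ[K] L)] (t : K) (s : L) (τ : L ≃ₐ[K] L)
    (g : L ≃ₐ[K] L) (a : L) :
    ell2 t s τ (Coalgebra.comul (R := L) (MonoidAlgebra.single g a)) =
      a * ell t s τ (MonoidAlgebra.single g 1) ^ 2 := by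
  have e : (MonoidAlgebra.single g a : MonoidAlgebra L (L ≃ₐ[K] L)) =
      a • MonoidAlgebra.single g 1 := by
    rw [MonoidAlgebra.smul_single, smul_eq_mul, mul_one]
  rw [MonoidAlgebra.comul_single, CommSemiring.comul_apply, TensorProduct.map_tmul, ell2_tmul]
  show ell t s τ (MonoidAlgebra.single g 1) * ell t s τ (MonoidAlgebra.single g a) = _
  rw [e, map_smul, smul_eq_mul]
  ring

lemma ell2_h0 [Fintype (L ≃ₐ[K] L)] (h : Dat R K L t s ω σ τ) :
    ell2 t s τ (Coalgebra.comul (R := L) (h0 s τ)) = - algebraMap K L t⁻¹ := by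
  have ht : algebraMap K L t⁻¹ * s ^ 3 = 1 := by
    rw [h.s3, ← map_mul, inv_mul_cancel₀ h.t0, map_one]
  have h3 := h.ω3
  have h5 := h.five
  obtain ⟨l1, l2, l3⟩ := ell_single h
  have hi1 : (ω * s)⁻¹ = ω ^ 2 * s⁻¹ := by
    rw [mul_inv, inv_eq_of_mul_eq_one_right (show ω * ω ^ 2 = 1 by linear_combination h3)]
  have hi2 : (ω ^ 2 * s)⁻¹ = ω * s⁻¹ := by
    rw [mul_inv, inv_eq_of_mul_eq_one_right (show ω ^ 2 * ω = 1 by linear_combination h3)]
  have hss : s⁻¹ * s = 1 := inv_mul_cancel₀ h.s0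
  obtain ⟨T, hT⟩ : ∃ T, T = algebraMap K L t⁻¹ := ⟨_, rfl⟩
  rw [← hT] at ht l1 l2 l3 ⊢
  rw [h0, map_sum, map_sum]
  simp only [ell2_comul]
  rw [h.sumG, c1 h, c2 h, c3 h, c4 h, c5 h, c6 h, l1, l2, l3]
  simp only [AlgEquiv.mul_apply, AlgEquiv.one_apply, map_inv₀, h.σs, h.τs, h.σ_s2, hi1, hi2]
  have e1 : s⁻¹ * s ^ 4 = s ^ 3 := by linear_combination s ^ 3 * hss
  have e2 : ω ^ 6 = 1 := by linear_combination (ω ^ 3 + 1) * h3
  have e3 : ω ^ 9 = 1 := by linear_combination (ω ^ 6 + ω ^ 3 + 1) * h3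
  linear_combination (8 * T ^ 2 * (1 + ω ^ 6 + ω ^ 9)) * e1 + 8 * T * (1 + ω ^ 6 + ω ^ 9) * ht +
    8 * T * e2 + 8 * T * e3 + 5 * T * h5

/-- the order in `H_λ` is not a Hopf order -/
theorem lambda_not_hopf (h : Dat R K L t s ω σ τ) :
    ¬ IsHopfOrder (ringOfInts R K) (Hlambda K L) (lambdaOrder R K L) := by
  classical
  intro H
  have := Fintype.ofFinite (L ≃ₐ[K] L)
  have h1 := H.comul_mem _ (h0_mem h)
  have h2 : ∀ z ∈ AddSubgroup.closure
      {z : MonoidAlgebra L (L ≃ₐ[K] L) ⊗[L] MonoidAlgebra L (L ≃ₐ[K] L) |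
        ∃ x ∈ lambdaOrder R K L, ∃ y ∈ lambdaOrder R K L, z = x ⊗ₜ[L] y},
      IsIntegral R (ell2 t s τ z) := by
    intro z hz
    induction hz using AddSubgroup.closure_induction with
    | mem z hz =>
      obtain ⟨x, hx, y, hy, rfl⟩ := hz
      obtain ⟨a, ha, ea⟩ := ell_mem h hx
      obtain ⟨b, hb, eb⟩ := ell_mem h hy
      rw [ell2_tmul, ea, eb]
      exact (int_map_iff.2 ha).mul (int_map_iff.2 hb)
    | zero => rw [map_zero]; exact isIntegral_zero
    | add x y _ _ hx hy => rw [map_add]; exact hx.add hy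
    | neg x _ hx => rw [map_neg]; exact hx.neg
  have h3 := h2 _ h1
  rw [ell2_h0 h] at h3
  have h4 := h3.neg
  rw [neg_neg, int_map_iff] at h4
  exact h.tinv h4

end main

/-- There is a finite Galois extension `L` of `K = 𝔽₅(t)` with nonabelian Galois group for which,
with `𝔅 = O_L`, the associated order in `K[G]` is a Hopf order, but the associated order in `H_λ` is
not; `O_K` and `O_L` are the integral closures of `𝔽₅[t]`. -/
theorem result : ∃ (L : Type) (_ : Field L) (_ : Algebra (RatFunc (ZMod 5)) L)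
    (_ : Algebra (ZMod 5)[X] L) (_ : IsScalarTower (ZMod 5)[X] (RatFunc (ZMod 5)) L),
    FiniteDimensional (RatFunc (ZMod 5)) L ∧ IsGalois (RatFunc (ZMod 5)) L ∧
    (∃ g k : L ≃ₐ[RatFunc (ZMod 5)] L, g * k ≠ k * g) ∧
    IsHopfOrder (ringOfInts (ZMod 5)[X] (RatFunc (ZMod 5))) Set.univ
      (classicalOrder (ZMod 5)[X] (RatFunc (ZMod 5)) L) ∧
    ¬ IsHopfOrder (ringOfInts (ZMod 5)[X] (RatFunc (ZMod 5))) (Hlambda (RatFunc (ZMod 5)) L)
      (lambdaOrder (ZMod 5)[X] (RatFunc (ZMod 5)) L) := by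
  obtain ⟨s, ω, σ, τ, h⟩ := exists_dat
  refine ⟨L5, inferInstance, inferInstance, inferInstance, inferInstance, inferInstance,
    inferInstance, ⟨τ, σ, ?_⟩, classical_hopf h, lambda_not_hopf h⟩
  rw [h.τσ]
  exact m3 h

end Pool.Agent.Results.MP_eed25b_nt.NotHopf
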